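import Pool.Agent.H45.BRT.Axioms3

/-!
# Bounded Ramsey for pairs is not provable in RCA0 + WKL + BSigma2
-/

set_option autoImplicit false

open Pool.Agent.H45.BRT

/-- There is a model of `RCA₀ + WKL + BΣ⁰₂` in which `BRT²₂` fails. -/
theorem Pool.Agent.Results.MP_14f891_lc.BRTFailsOverWKL.result :
    ∃ 𝔐 : Model, 𝔐.RCA0 ∧ 𝔐.WKL ∧ 𝔐.BSigma2 ∧ ¬ 𝔐.BRT22 :=
  Pool.Agent.H45.BRT.main
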